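import Pool.Agent.KS6_69.SQ.Forcing

/-!
# Cardinal arithmetic and preservation of cardinals
-/

set_option autoImplicit false

namespace Pool.Agent.KS6_69.SQ.Base
open Cardinal Ordinal Set

universe u v w

section

theorem exists_rec {I : Type u} {X : Type v} [LinearOrder I] [WellFoundedLT I]
    (R : (i : I) → ((j : I) → j < i → X) → X → Prop)
    (h : ∀ i (f : (j : I) → j < i → X),
      (∀ j (hj : j < i), R j (fun k hk => f k (hk.trans hj)) (f j hj)) → ∃ x, R i f x) :
    ∃ F : I → X, ∀ i, R i (fun j _ => F j) (F i) := by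
  classical
  rcases isEmpty_or_nonempty I with hI | hI
  · exact ⟨fun i => (hI.false i).elim, fun i => (hI.false i).elim⟩
  have hX : Nonempty X := by
    obtain ⟨b, _, hb⟩ := (wellFounded_lt (α := I)).has_min Set.univ Set.univ_nonempty
    obtain ⟨x, _⟩ := h b (fun j hj => (hb j trivial hj).elim) (fun j hj => (hb j trivial hj).elim)
    exact ⟨x⟩
  let G : (i : I) → ((j : I) → j < i → X) → X := fun i f =>
    if h : ∃ x, R i f x then h.choose else Classical.arbitrary X
  let F : I → X := (wellFounded_lt (α := I)).fix G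
  have hF : ∀ i, F i = G i (fun j _ => F j) := fun i => WellFounded.fix_eq _ G i
  refine ⟨F, fun i => ?_⟩
  induction i using (wellFounded_lt (α := I)).induction with
  | _ i ih =>
    have h1 : ∃ x, R i (fun j _ => F j) x := h i _ (fun j hj => ih j hj)
    have h2 : F i = h1.choose := by
      rw [hF i]
      exact dif_pos h1
    rw [h2]
    exact h1.choose_spec

end

/-- the well-ordered set of the ordinals below `lam⁺` -/
abbrev Lam (lam : Cardinal.{u}) : Type u := (Order.succ lam).ord.ToType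

theorem mk_Iio_ord_lt {μ : Cardinal.{u}} (i : μ.ord.ToType) : #(Iio i) < μ := by
  simpa using mk_Iio_lt i

section
variable {lam : Cardinal.{u}}

theorem mk_Iio_le (a : Lam lam) : #(Iio a) ≤ lam := by
  have h : #(Iio a) < Order.succ lam := mk_Iio_ord_lt a
  exact Order.lt_succ_iff.1 h

theorem mk_Iic_le (hl : ℵ₀ ≤ lam) (a : Lam lam) : #(Iic a) ≤ lam := by
  have : Iic a = insert a (Iio a) := by
    ext x
    simp [le_iff_eq_or_lt]
  rw [this]
  refine (mk_insert_le).trans ?_
  exact add_le_of_le hl (mk_Iio_le a) (one_le_aleph0.trans hl)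

theorem mk_Lam : #(Lam lam) = Order.succ lam := by
  change #((Order.succ lam).ord.ToType) = _
  simp

theorem exists_bound (hl : ℵ₀ ≤ lam) {ι : Type u} (hι : #ι ≤ lam) (f : ι → Lam lam) :
    ∃ b : Lam lam, ∀ i, f i < b := by
  by_contra hc
  push Not at hc
  have h1 : (Set.univ : Set (Lam lam)) ⊆ ⋃ n, Set.Iic (f n) := by
    intro a _
    obtain ⟨n, hn⟩ := hc a
    exact Set.mem_iUnion.2 ⟨n, hn⟩
  have h2 : #(⋃ n, Set.Iic (f n) : Set (Lam lam)) ≤ lam := by
    refine (mk_iUnion_le_sum_mk.trans (sum_le_mk_mul_iSup _)).trans ?_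
    refine mul_le_of_le hl hι ?_
    exact ciSup_le' fun v => mk_Iic_le hl _
  have h3 := (mk_le_mk_of_subset h1).trans h2
  rw [mk_univ, mk_Lam] at h3
  exact absurd h3 (not_le.2 (Order.lt_succ lam))

end

section

/-- choose different elements of large sets -/
theorem exists_choice {mu : Cardinal.{u}} {T X : Type u} (hT : #T ≤ mu) (B : T → Set X)
    (hB : ∀ t, mu ≤ #(B t)) : ∃ x : T → X, Function.Injective x ∧ ∀ t, x t ∈ B t := by
  classical
  obtain ⟨e⟩ : Nonempty ((#T).ord.ToType ≃ T) := by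
    rw [← Cardinal.eq]
    simp
  obtain ⟨x, hx⟩ := exists_rec (I := (#T).ord.ToType) (X := X)
    (fun i f x => x ∈ B (e i) ∧ ∀ j (hj : j < i), x ≠ f j hj) (by
      intro i f _
      by_contra hc
      push Not at hc
      have h1 : B (e i) ⊆ range (fun j : Iio i => f j.1 j.2) := by
        intro x hx
        obtain ⟨j, hj, h2⟩ := hc x hx
        exact ⟨⟨j, hj⟩, h2.symm⟩
      have h2 := (hB (e i)).trans ((mk_le_mk_of_subset h1).trans mk_range_le)
      exact absurd (h2.trans_lt (mk_Iio_ord_lt i)) (not_lt.2 hT))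
  refine ⟨fun t => x (e.symm t), ?_, fun t => by simpa using (hx (e.symm t)).1⟩
  intro t t' h
  rcases lt_trichotomy (e.symm t) (e.symm t') with h1 | h1 | h1
  · exact absurd h.symm ((hx _).2 _ h1)
  · exact e.symm.injective h1
  · exact absurd h ((hx _).2 _ h1)

/-- a function taking all values on each of at most `μ` sets of size `μ` -/
theorem exists_split {mu : Cardinal.{u}} (h0 : ℵ₀ ≤ mu) {C X : Type u} [Nonempty C]
    (hC : #C ≤ mu) (pr : Set (Set X)) (hpr : #(pr) ≤ mu) (hB : ∀ B ∈ pr, mu ≤ #B) :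
    ∃ g : X → C, ∀ B ∈ pr, ∀ c, ∃ x ∈ B, g x = c := by
  classical
  obtain ⟨x, hx, hx'⟩ := exists_choice (mu := mu) (T := pr × C) (X := X)
    (by
      rw [mk_prod, Cardinal.lift_id, Cardinal.lift_id]
      exact mul_le_of_le h0 hpr hC) (fun t => t.1.1) (fun t => hB _ t.1.2)
  refine ⟨Function.extend x (fun t => t.2) (fun _ => Classical.arbitrary C), ?_⟩
  intro B hB' c
  exact ⟨x (⟨B, hB'⟩, c), hx' (⟨B, hB'⟩, c), hx.extend_apply _ _ _⟩


end

section

variable {mu : Cardinal.{u}}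

theorem exists_cover {X m : Type u} [Nonempty X] (s : Set X) (h : #s ≤ #m) :
    ∃ e : m → X, s ⊆ range e := by
  classical
  obtain ⟨j⟩ := h
  refine ⟨Function.extend j (fun x => x.1) (fun _ => Classical.arbitrary X), fun x hx => ?_⟩
  exact ⟨j ⟨x, hx⟩, j.injective.extend_apply _ _ _⟩

theorem power_facts (h0 : ℵ₀ ≤ mu) (h2 : 2 ^ mu = Order.succ mu) :
    (Order.succ mu) ^ mu = Order.succ mu ∧ mu ^ mu = Order.succ mu := by
  have h3 : (Order.succ mu) ^ mu = Order.succ mu := by
    rw [← h2, ← power_mul, mul_eq_self h0]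
  refine ⟨h3, le_antisymm ?_ ?_⟩
  · calc mu ^ mu ≤ (Order.succ mu) ^ mu := power_le_power_right (Order.le_succ mu)
      _ = _ := h3
  · rw [← h2]
    exact power_le_power_right ((natCast_lt_aleph0 (n := 2)).le.trans h0)

end

section

open Pool.Agent.KS6_69.SQ.Forcing

variable {P : Type} [Preorder P]

/-- preservation of cardinals -/
theorem cardinals_preserved {θ κ : Cardinal.{0}} (hκ0 : ℵ₀ ≤ κ) (hκ : ∀ ν, θ < ν → κ ≤ ν)
    (hcc : ∀ Z : Set P, (∀ p ∈ Z, ∀ q ∈ Z, p ≠ q → ¬ ∃ r, r ≤ p ∧ r ≤ q) → #Z ≤ κ)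
    (hdec : ∀ (A Y : Type) (_ : #A ≤ θ) (R : A → Y → Set P) (p : P), p ∈ IsFun R →
      ∃ q ≤ p, ∃ f : A → Y, ∀ a, q ∈ meets (R a (f a))) (p : P) :
    p ∈ CardinalsPreserved.{0, 0} P := by
  classical
  intro α β hαβ hβ q _ h
  obtain ⟨q, _, R, hR1, hR2⟩ := mem_fex.1 h q le_rfl
  rcases le_or_gt α θ with hα | hα
  · obtain ⟨r, hr, f, hf⟩ := hdec α.out β.out (by rwa [mk_out]) R q hR1
    have hsurj : Function.Surjective f := by
      intro b
      obtain ⟨s, hs, a, ha⟩ := mem_fex.1 (hR2 b) r hr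
      exact ⟨a, IsFun.unique (down_IsFun _ _ (down_IsFun _ _ hR1 _ hr) _ hs)
        (down_meets _ _ (hf a) _ hs) ha⟩
    have h1 := mk_le_of_surjective hsurj
    rw [mk_out, mk_out] at h1
    exact absurd h1 (not_le.2 hαβ)
  · have hκα : κ ≤ α := hκ α hα
    have hV : ∀ a : α.out, #{b : β.out | ∃ s ≤ q, s ∈ meets (R a b)} ≤ κ := by
      intro a
      have h1 : ∀ b : {b : β.out | ∃ s ≤ q, s ∈ meets (R a b)}, ∃ s ≤ q, s ∈ meets (R a b.1) :=
        fun b => b.2
      choose s hs hs' using h1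
      have hinc : ∀ b b', b ≠ b' → ¬ ∃ r, r ≤ s b ∧ r ≤ s b' := by
        rintro b b' hbb ⟨r, hr, hr'⟩
        refine hbb (Subtype.ext ?_)
        exact IsFun.unique (down_IsFun _ _ hR1 _ (hr.trans (hs b)))
          (down_meets _ _ (hs' b) _ hr) (down_meets _ _ (hs' b') _ hr')
      have hinj : Function.Injective s := by
        intro b b' hbb
        by_contra hne
        exact hinc b b' hne ⟨s b, le_rfl, hbb.le⟩
      have h2 := hcc (Set.range s) (by
        rintro _ ⟨b, rfl⟩ _ ⟨b', rfl⟩ hne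
        exact hinc b b' (fun h => hne (by rw [h])))
      rwa [mk_range_eq s hinj] at h2
    have h3 : (Set.univ : Set β.out) ⊆ ⋃ a : α.out, {b : β.out | ∃ s ≤ q, s ∈ meets (R a b)} := by
      intro b _
      obtain ⟨s, hs, a, ha⟩ := mem_fex.1 (hR2 b) q le_rfl
      exact Set.mem_iUnion.2 ⟨a, s, hs, ha⟩
    have h4 := mk_le_mk_of_subset h3
    rw [mk_univ, mk_out] at h4
    have h5 : β ≤ α := by
      refine h4.trans ((mk_iUnion_le_sum_mk.trans (sum_le_mk_mul_iSup _)).trans ?_)
      exact mul_le_of_le (hκ0.trans hκα) (mk_out α).le ((ciSup_le' hV).trans hκα)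
    exact absurd h5 (not_le.2 hαβ)

end

end Pool.Agent.KS6_69.SQ.Base
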