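import Pool.Agent.KS6_69.SQ.Base

/-!
# A notion of forcing for the relation square in square

For an infinite cardinal `μ` with `2 ^ μ = μ⁺`, the conditions are colourings of the pairs of a set
of at most `μ` ordinals below `μ⁺⁺` with values in a set of at most `μ⁺` colours, together with at
most `μ` promises `(B, c)`: a new ordinal `x` lying below all elements of `B` must be joined to some
element of `B` by a pair of colour `c`.
-/

set_option autoImplicit false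

namespace Pool.Agent.KS6_69.SQ.Cond

open Cardinal Ordinal Set
open Pool.Agent.KS6_69.SQ.Base

/-- the well-ordered set of the ordinals below `μ⁺⁺` -/
abbrev S (mu : Cardinal.{0}) : Type := Lam (Order.succ mu)

/-- The conditions: a set `a` of at most `μ` ordinals below `μ⁺⁺`, a function `g` (the colour of
the pair `x < y` of elements of `a` is `g x y`), and a set `pr` of at most `μ` promises, which
consist of a subset of `a` with at least `μ` elements and a colour. -/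
structure Cnd (mu : Cardinal.{0}) (C : Type) : Type where
  a : Set (S mu)
  g : S mu → S mu → C
  pr : Set (Set (S mu) × C)
  ha : #a ≤ mu
  hpr : #(pr) ≤ mu
  hB : ∀ B ∈ pr, B.1 ⊆ a ∧ mu ≤ #B.1

variable {mu : Cardinal.{0}} {C : Type}

instance : Preorder (Cnd mu C) where
  le q p := p.a ⊆ q.a ∧ p.pr ⊆ q.pr ∧ (∀ x ∈ p.a, ∀ y ∈ p.a, q.g x y = p.g x y) ∧
    ∀ B ∈ p.pr, ∀ x ∈ q.a, x ∉ p.a → (∀ y ∈ B.1, x < y) → ∃ y ∈ B.1, q.g x y = B.2
  le_refl p := ⟨Subset.rfl, Subset.rfl, fun _ _ _ _ => rfl, fun _ _ _ h h' => absurd h h'⟩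
  le_trans r q p h h' := by
    refine ⟨h'.1.trans h.1, h'.2.1.trans h.2.1, ?_, ?_⟩
    · intro x hx y hy
      rw [h.2.2.1 x (h'.1 hx) y (h'.1 hy), h'.2.2.1 x hx y hy]
    · intro B hB x hx hx' hlt
      by_cases h3 : x ∈ q.a
      · obtain ⟨y, hy, hyc⟩ := h'.2.2.2 B hB x h3 hx' hlt
        exact ⟨y, hy, by rw [h.2.2.1 x h3 y (h'.1 ((p.hB B hB).1 hy)), hyc]⟩
      · exact h.2.2.2 B (h'.2.1 hB) x hx h3 hlt

/-- a function realising at most `μ` promises -/
theorem exists_realise [Nonempty C] (pr : Set (Set (S mu) × C)) (hpr : #(pr) ≤ mu)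
    (hB : ∀ B ∈ pr, mu ≤ #B.1) : ∃ g : S mu → C, ∀ B ∈ pr, ∃ x ∈ B.1, g x = B.2 := by
  classical
  obtain ⟨x, hx, hx'⟩ := exists_choice (mu := mu) (T := pr) (X := S mu) hpr (fun t => t.1.1)
    (fun t => hB _ t.2)
  refine ⟨Function.extend x (fun t => t.1.2) (fun _ => Classical.arbitrary C), ?_⟩
  intro B hB'
  exact ⟨x ⟨B, hB'⟩, hx' ⟨B, hB'⟩, hx.extend_apply _ _ _⟩

/-- Chains of length at most `μ` have lower bounds, with prescribed additional elements and
promises. -/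
theorem lower [Nonempty C] (h0 : ℵ₀ ≤ mu) {I : Type} [LinearOrder I] [Nonempty I]
    (hI : #I ≤ mu) (s : I → Cnd mu C) (hs : ∀ i j, i ≤ j → s j ≤ s i)
    (A : Set (S mu)) (hA : #A ≤ mu) (Q : Set (Set (S mu) × C)) (hQ : #Q ≤ mu)
    (hQA : ∀ B ∈ Q, B.1 ⊆ A ∧ mu ≤ #B.1) :
    ∃ q : Cnd mu C, (∀ i, q ≤ s i) ∧ A ⊆ q.a ∧ Q ⊆ q.pr := by
  classical
  have hpr : #(⋃ i, (s i).pr : Set (Set (S mu) × C)) ≤ mu := by
    refine (mk_iUnion_le_sum_mk.trans (sum_le_mk_mul_iSup _)).trans ?_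
    exact mul_le_of_le h0 hI (ciSup_le' fun i => (s i).hpr)
  have ha : #(⋃ i, (s i).a : Set (S mu)) ≤ mu := by
    refine (mk_iUnion_le_sum_mk.trans (sum_le_mk_mul_iSup _)).trans ?_
    exact mul_le_of_le h0 hI (ciSup_le' fun i => (s i).ha)
  obtain ⟨g, hg⟩ := exists_realise (⋃ i, (s i).pr) hpr (by
    intro B hB
    obtain ⟨i, hi⟩ := mem_iUnion.1 hB
    exact ((s i).hB B hi).2)
  let F : S mu → S mu → C := fun x y =>
    if h : ∃ i, x ∈ (s i).a ∧ y ∈ (s i).a then (s h.choose).g x y else g y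
  have hF : ∀ i x y, x ∈ (s i).a → y ∈ (s i).a → F x y = (s i).g x y := by
    intro i x y h1 h2
    have h : ∃ i, x ∈ (s i).a ∧ y ∈ (s i).a := ⟨i, h1, h2⟩
    have h3 : F x y = (s h.choose).g x y := dif_pos h
    rw [h3]
    rcases le_total i h.choose with h4 | h4
    · exact (hs _ _ h4).2.2.1 x h1 y h2
    · exact ((hs _ _ h4).2.2.1 x h.choose_spec.1 y h.choose_spec.2).symm
  let q : Cnd mu C :=
    { a := (⋃ i, (s i).a) ∪ A
      g := F
      pr := (⋃ i, (s i).pr) ∪ Q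
      ha := (mk_union_le _ _).trans (add_le_of_le h0 ha hA)
      hpr := (mk_union_le _ _).trans (add_le_of_le h0 hpr hQ)
      hB := by
        rintro B (hB | hB)
        · obtain ⟨i, hi⟩ := mem_iUnion.1 hB
          exact ⟨(((s i).hB B hi).1.trans (subset_iUnion (fun i => (s i).a) i)).trans
            subset_union_left, ((s i).hB B hi).2⟩
        · exact ⟨(hQA B hB).1.trans subset_union_right, (hQA B hB).2⟩ }
  have hqa : ∀ i, (s i).a ⊆ q.a := fun i =>
    (subset_iUnion (fun i => (s i).a) i).trans subset_union_left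
  refine ⟨q, fun i => ?_, subset_union_right, subset_union_right⟩
  refine ⟨hqa i, (subset_iUnion (fun i => (s i).pr) i).trans subset_union_left, ?_, ?_⟩
  · intro x hx y hy
    exact hF i x y hx hy
  · intro B hB x hx hx' hlt
    by_cases h : ∃ j, x ∈ (s j).a
    · obtain ⟨j, hj⟩ := h
      have hij : s j ≤ s i := by
        rcases le_total i j with h3 | h3
        · exact hs _ _ h3
        · exact absurd ((hs _ _ h3).1 hj) hx'
      obtain ⟨y, hy, hyc⟩ := hij.2.2.2 B hB x hj hx' hlt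
      have hyj : y ∈ (s j).a := hij.1 (((s i).hB B hB).1 hy)
      refine ⟨y, hy, ?_⟩
      rw [show q.g x y = F x y from rfl, hF j x y hj hyj, hyc]
    · obtain ⟨y, hy, hyc⟩ := hg B (mem_iUnion.2 ⟨i, hB⟩)
      refine ⟨y, hy, ?_⟩
      have h3 : F x y = g y := dif_neg (by
        rintro ⟨j, hj, _⟩
        exact h ⟨j, hj⟩)
      rw [show q.g x y = F x y from rfl, h3, hyc]

/-- extend one condition -/
theorem extend [Nonempty C] (h0 : ℵ₀ ≤ mu) (p : Cnd mu C)
    (A : Set (S mu)) (hA : #A ≤ mu) (Q : Set (Set (S mu) × C)) (hQ : #Q ≤ mu)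
    (hQA : ∀ B ∈ Q, B.1 ⊆ A ∧ mu ≤ #B.1) :
    ∃ q ≤ p, A ⊆ q.a ∧ Q ⊆ q.pr := by
  obtain ⟨q, h1, h2⟩ := lower h0 (I := PUnit.{1})
    (by rw [mk_punit]; exact one_le_aleph0.trans h0) (fun _ => p) (fun _ _ _ => le_rfl) A hA Q hQ
    hQA
  exact ⟨q, h1 PUnit.unit, h2⟩

/-- at most `μ` dense sets can be met -/
theorem meet [Nonempty C] (h0 : ℵ₀ ≤ mu) {ι : Type} (hι : #ι ≤ mu)
    (φ : ι → Set (Cnd mu C)) (hd : ∀ n, ∀ p ∈ φ n, ∀ q ≤ p, q ∈ φ n) (p : Cnd mu C)
    (h : ∀ n, ∀ q ≤ p, ∃ r ≤ q, r ∈ φ n) : ∃ q ≤ p, ∀ n, q ∈ φ n := by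
  classical
  rcases isEmpty_or_nonempty ι with hE | hE
  · exact ⟨p, le_rfl, fun n => (hE.false n).elim⟩
  obtain ⟨e⟩ : Nonempty ((#ι).ord.ToType ≃ ι) := by
    rw [← Cardinal.eq]
    simp
  have : Nonempty (#ι).ord.ToType := ⟨e.symm (Classical.arbitrary ι)⟩
  have low : ∀ {I : Type} [LinearOrder I] (s : I → Cnd mu C), #I ≤ mu →
      (∀ i j, i ≤ j → s j ≤ s i) → (∀ i, s i ≤ p) → ∃ q ≤ p, ∀ i, q ≤ s i := by
    intro I _ s hI hs hp
    rcases isEmpty_or_nonempty I with hI' | hI'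
    · exact ⟨p, le_rfl, fun i => (hI'.false i).elim⟩
    · obtain ⟨q, h1, _⟩ := lower h0 hI s hs ∅ (by simp) ∅ (by simp) (by simp)
      exact ⟨q, (h1 (Classical.arbitrary I)).trans (hp _), h1⟩
  obtain ⟨s, hs⟩ := exists_rec (I := (#ι).ord.ToType) (X := Cnd mu C)
    (fun i f x => x ≤ p ∧ (∀ j (hj : j < i), x ≤ f j hj) ∧ x ∈ φ (e i)) (by
      intro i f hf
      obtain ⟨q, hq, h1⟩ := low (I := Iio i) (fun j => f j.1 j.2)
        ((mk_Iio_ord_lt i).le.trans hι) (by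
          rintro ⟨j, hj⟩ ⟨k, hk⟩ hjk
          rcases eq_or_lt_of_le (show j ≤ k from hjk) with h2 | h2
          · subst h2
            exact le_rfl
          · exact (hf k hk).2.1 j h2) (fun j => (hf j.1 j.2).1)
      obtain ⟨r, hr, hr'⟩ := h (e i) q hq
      exact ⟨r, hr.trans hq, fun j hj => hr.trans (h1 ⟨j, hj⟩), hr'⟩)
  obtain ⟨q, hq, h1⟩ := low s (by simpa using hι) (by
    intro i j hij
    rcases eq_or_lt_of_le hij with h2 | h2
    · subst h2
      exact le_rfl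
    · exact (hs j).2.1 i h2) (fun i => (hs i).1)
  refine ⟨q, hq, fun n => ?_⟩
  have h2 := hd _ _ (hs (e.symm n)).2.2 q (h1 _)
  rwa [e.apply_symm_apply] at h2

theorem nonempty_cond [Nonempty C] : Nonempty (Cnd mu C) :=
  ⟨⟨∅, fun _ _ => Classical.arbitrary C, ∅, by simp, by simp, by simp⟩⟩

/-- Compatibility: two conditions which agree on their common part are compatible, if the common
part is an initial segment of the first one and the other elements of the second one lie above all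
elements of the first one. -/
theorem amalgam [Nonempty C] (h0 : ℵ₀ ≤ mu) (p q : Cnd mu C)
    (h1 : ∀ x ∈ p.a, ∀ y ∈ p.a, x ∈ q.a → y ∈ q.a → p.g x y = q.g x y)
    (h2 : ∀ x ∈ p.a, ∀ y ∈ q.a, y ∉ p.a → x < y)
    (h3 : ∀ x ∈ p.a, x ∉ q.a → ∀ y ∈ p.a, y ∈ q.a → y < x) : ∃ t, t ≤ p ∧ t ≤ q := by
  classical
  obtain ⟨h, hh⟩ := exists_realise q.pr q.hpr (fun B hB => (q.hB B hB).2)
  let t : Cnd mu C :=
    { a := p.a ∪ q.a
      g := fun x y => if x ∈ p.a ∧ y ∈ p.a then p.g x y else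
        if x ∈ q.a ∧ y ∈ q.a then q.g x y else h y
      pr := p.pr ∪ q.pr
      ha := (mk_union_le _ _).trans (add_le_of_le h0 p.ha q.ha)
      hpr := (mk_union_le _ _).trans (add_le_of_le h0 p.hpr q.hpr)
      hB := by
        rintro B (hB | hB)
        · exact ⟨(p.hB B hB).1.trans subset_union_left, (p.hB B hB).2⟩
        · exact ⟨(q.hB B hB).1.trans subset_union_right, (q.hB B hB).2⟩ }
  have tg : ∀ x y, t.g x y = if x ∈ p.a ∧ y ∈ p.a then p.g x y else
        if x ∈ q.a ∧ y ∈ q.a then q.g x y else h y := fun _ _ => rfl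
  refine ⟨t, ⟨subset_union_left, subset_union_left, ?_, ?_⟩,
    ⟨subset_union_right, subset_union_right, ?_, ?_⟩⟩
  · intro x hx y hy
    rw [tg, if_pos ⟨hx, hy⟩]
  · intro B hB x hx hx' hlt
    exfalso
    have hne : B.1.Nonempty := by
      rw [Set.nonempty_iff_ne_empty]
      intro he
      have h4 := (p.hB _ hB).2
      rw [he, mk_eq_zero] at h4
      exact absurd (h0.trans h4) (not_le.2 aleph0_pos)
    obtain ⟨y, hy⟩ := hne
    have h4 : x ∈ q.a := hx.resolve_left hx'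
    exact lt_asymm (h2 y ((p.hB B hB).1 hy) x h4 hx') (hlt y hy)
  · intro x hx y hy
    rw [tg]
    by_cases h4 : x ∈ p.a ∧ y ∈ p.a
    · rw [if_pos h4]
      exact h1 x h4.1 y h4.2 hx hy
    · rw [if_neg h4, if_pos ⟨hx, hy⟩]
  · intro B hB x hx hx' hlt
    have h4 : x ∈ p.a := hx.resolve_right hx'
    obtain ⟨y, hy, hyc⟩ := hh B hB
    have h5 : y ∈ q.a := (q.hB B hB).1 hy
    have h6 : y ∉ p.a := fun h6 => lt_asymm (h3 x h4 hx' y h6 h5) (hlt y hy)
    refine ⟨y, hy, ?_⟩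
    rw [tg, if_neg (fun h => h6 h.2), if_neg (fun h => hx' h.1), hyc]

end Pool.Agent.KS6_69.SQ.Cond
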