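import Pool.Agent.KS6_69.SQ.Forcing

/-!
# Square in square in the language of forcing
-/

set_option autoImplicit false

namespace Pool.Agent.KS6_69.SQ.Defs

open Cardinal Pool.Agent.KS6_69.SQ.Forcing

section

variable {P : Type} [Preorder P]

/-- `R` names a strictly increasing function from `T` to `K`. (The subsets of the well-ordered set
`K` which have the order type of `T` are exactly the ranges of these functions.) -/
def Increasing {T K : Type} [LT T] [LT K] (R : T → K → Set P) : Set P :=
  fand (IsFun R) (fall fun x : T => fall fun y : T => fall fun _ : x < y =>
    fall fun a : K => fall fun b : K =>
      fimp (fand (meets (R x a)) (meets (R y b))) (fground (a < b)))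

/-- The function named by `F` from `K × K` to `C` (the statement that its value at `(a, b)` is `c`
is named by `F a b c`) has the constant value `c` on `A × B`, where `A` and `B` are the ranges of
the functions named by `A` and `B`. -/
def ConstantOn {T K C : Type} (F : K → K → C → Set P) (A B : T → K → Set P) (c : C) : Set P :=
  fall fun x : T => fall fun y : T => fall fun a : K => fall fun b : K =>
    fimp (fand (meets (A x a)) (meets (B y b))) (meets (F a b c))

end

section

variable (P : Type) [Preorder P]

/-- The relation `sis(|K|, otp T, |C|)` in the extension: for every function `F : K × K → C` there
are two subsets `A`, `B` of `K` of the order type of `T` (given by their increasing enumerations)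
and a colour `c` such that `F` is constant on `A × B` with value `c`. -/
def Sis (K T C : Type) [LT K] [LT T] : Set P :=
  fall fun F : K → K → C → Set P => fimp (fall fun a : K => IsFun (F a))
    (fex fun A : T → K → Set P => fex fun B : T → K → Set P => fex fun c : C =>
      fand (fand (Increasing A) (Increasing B)) (ConstantOn F A B c))

/-- In the extension there is a function from `K × K` to `C` which takes all values in `C` on
every product `A × B` of two subsets `A`, `B` of `K` of the order type of `T`. -/
def AllColoursOnProducts (K T C : Type) [LT K] [LT T] : Set P :=
  fex fun F : K → K → C → Set P =>
    fand (fall fun a : K => IsFun (F a))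
      (fall fun A : T → K → Set P => fall fun B : T → K → Set P =>
        fimp (fand (Increasing A) (Increasing B))
          (fall fun c : C => fex fun x : T => fex fun y : T => fex fun a : K => fex fun b : K =>
            fand (fand (meets (A x a)) (meets (B y b))) (meets (F a b c))))

/-- In the extension there is a function `F` from `K × K` to `C` such that, for every injective
function from `I` to `K` (named by `B`), with range `B'`, and for every value `c`, there are at most
`|I|` elements `a` of `K` (namely those in the range of the function from `I` to `K` named by `E`)
which are smaller than all elements of `B'` and for which there is no `b ∈ B'` with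
`F (a, b) = F (b, a) = c`. -/
def AlmostAllRows (K I C : Type) [LT K] : Set P :=
  fex fun F : K → K → C → Set P =>
    fand (fall fun a : K => IsFun (F a))
      (fall fun B : I → K → Set P => fimp (fand (IsFun B) (IsInj B))
        (fall fun c : C => fex fun E : I → K → Set P => fand (IsFun E)
          (fall fun a : K =>
            fimp (fand (fall fun i : I => fall fun b : K => fimp (meets (B i b)) (fground (a < b)))
                (fall fun i : I => fnot (meets (E i a))))
              (fex fun i : I => fex fun b : K =>
                fand (meets (B i b)) (fand (meets (F a b c)) (meets (F b a c)))))))

/-- `κ ^ ν ≤ κ` in the extension, for all cardinals `ν < κ` of the ground model: there is a family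
`E` of functions from `ν` to `κ`, indexed by `κ`, in which every function from `ν` to `κ` occurs. -/
def WeakPower (κ : Cardinal.{0}) : Set P :=
  fall fun ν : Cardinal.{0} => fall fun _ : ν < κ =>
    fex fun E : κ.ord.ToType → ν.out → κ.ord.ToType → Set P =>
      fand (fall fun k : κ.ord.ToType => IsFun (E k))
        (fall fun R : ν.out → κ.ord.ToType → Set P => fimp (IsFun R)
          (fex fun k : κ.ord.ToType => fall fun i : ν.out => fall fun x : κ.ord.ToType =>
            fimp (meets (R i x)) (meets (E k i x))))

end

end Pool.Agent.KS6_69.SQ.Defs
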