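import Pool.Agent.KS6_69.SQ.Defs
import Pool.Agent.KS6_69.SQ.Cond

/-!
# The generic colouring takes all values on all products
-/

set_option autoImplicit false

namespace Pool.Agent.KS6_69.SQ.Forced

open Cardinal Ordinal Set
open Pool.Agent.KS6_69.SQ.Forcing Pool.Agent.KS6_69.SQ.Defs
open Pool.Agent.KS6_69.SQ.Base Pool.Agent.KS6_69.SQ.Cond

variable {mu : Cardinal.{0}} {C : Type}

theorem decide_fun [Nonempty C] (h0 : ℵ₀ ≤ mu) {A : Type} (hA : #A ≤ mu)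
    {Y : Type} (R : A → Y → Set (Cnd mu C)) (p : Cnd mu C) (hp : p ∈ IsFun R) :
    ∃ q ≤ p, ∃ f : A → Y, ∀ a, q ∈ meets (R a (f a)) := by
  obtain ⟨q, hq, h1⟩ := meet h0 hA (fun a => {t | ∃ y, t ∈ meets (R a y)})
    (fun n t ⟨a, ha⟩ t' ht' => ⟨a, down_meets _ _ ha _ ht'⟩) p (by
      intro n t ht
      obtain ⟨t', ht', a, ha⟩ := mem_fex.1 (hp.1 n) t ht
      exact ⟨t', ht', a, ha⟩)
  choose f hf using h1
  exact ⟨q, hq, f, hf⟩

theorem core [Nonempty C] (h0 : ℵ₀ ≤ mu) {I : Type} (hI : #I = mu)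
    (L : Lam mu → S mu → Set (Cnd mu C)) (R : I → S mu → Set (Cnd mu C)) (t : Cnd mu C)
    (hL : t ∈ IsFun L)
    (hLi : ∀ x x' a, t ∈ fimp (fand (meets (L x a)) (meets (L x' a))) (fground (x = x')))
    (hR : t ∈ IsFun R)
    (hRi : ∀ x x' a, t ∈ fimp (fand (meets (R x a)) (meets (R x' a))) (fground (x = x')))
    (hLR : ∀ x i a b, t ∈ fimp (fand (meets (L x a)) (meets (R i b))) (fground (a < b)))
    (c : C) :
    ∃ s ≤ t, ∃ x i a b, s ∈ meets (L x a) ∧ s ∈ meets (R i b) ∧ a < b ∧ a ∈ s.a ∧ b ∈ s.a ∧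
      s.g a b = c := by
  classical
  obtain ⟨t2, ht2, f, hf⟩ := decide_fun h0 (A := I) hI.le R t hR
  have hinj : Function.Injective f := by
    intro i i' hii
    obtain ⟨_, _, h3⟩ := mem_fimp.1 (hRi i i' (f i)) t2 ht2 ⟨hf i, by rw [hii]; exact hf i'⟩
    exact h3
  have hcard : #(range f) = mu := by rw [mk_range_eq _ hinj, hI]
  obtain ⟨t3, ht3, _, hpr⟩ := extend h0 t2 (range f) hcard.le {(range f, c)}
    (by rw [mk_singleton]; exact one_le_aleph0.trans h0) (by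
      intro D hD
      rw [mem_singleton_iff] at hD
      subst hD
      exact ⟨Subset.rfl, hcard.ge⟩)
  have hpr' : (range f, c) ∈ t3.pr := hpr rfl
  have hX : ∃ s ≤ t3, ∃ x a, a ∉ t3.a ∧ s ∈ meets (L x a) := by
    by_contra hc
    push Not at hc
    obtain ⟨s0, hs0, h1⟩ := meet h0 (ι := t3.a) t3.ha
      (fun y => {s | (∃ x, s ∈ meets (L x y.1)) ∨ ∀ x, s ∈ fnot (meets (L x y.1))})
      (by
        rintro y s (⟨x, hx⟩ | hx) s' hs'
        · exact Or.inl ⟨x, down_meets _ _ hx _ hs'⟩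
        · exact Or.inr fun x => down_fnot _ _ (hx x) _ hs') t3
      (by
        intro y s _
        by_cases h2 : ∃ s' ≤ s, ∃ x, s' ∈ meets (L x y.1)
        · obtain ⟨s', hs', hx⟩ := h2
          exact ⟨s', hs', Or.inl hx⟩
        · push Not at h2
          exact ⟨s, le_rfl, Or.inr fun x s' hs' => h2 s' hs' x⟩)
    have hne : Nonempty (Lam mu) := by
      rw [← mk_ne_zero_iff, mk_Lam]
      exact (aleph0_pos.trans_le (h0.trans (Order.le_succ mu))).ne'
    have h2 : ∀ y : t3.a, ∃ g : Lam mu, s0 ∈ meets (L g y.1) ∨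
        ∀ x, s0 ∈ fnot (meets (L x y.1)) := by
      intro y
      rcases h1 y with ⟨x, hx⟩ | hx
      · exact ⟨x, Or.inl hx⟩
      · exact ⟨hne.some, Or.inr hx⟩
    choose g hg using h2
    have hx : ∃ x : Lam mu, ∀ y, x ≠ g y := by
      by_contra h3
      push Not at h3
      have h4 : (Set.univ : Set (Lam mu)) ⊆ range g := by
        intro x _
        obtain ⟨y, hy⟩ := h3 x
        exact ⟨y, hy.symm⟩
      have h5 := (mk_le_mk_of_subset h4).trans (mk_range_le.trans t3.ha)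
      rw [mk_univ, mk_Lam] at h5
      exact absurd h5 (not_le.2 (Order.lt_succ mu))
    obtain ⟨x, hx⟩ := hx
    obtain ⟨s1, hs1, y, hy⟩ := mem_fex.1 (hL.1 x) s0 (hs0.trans (ht3.trans ht2))
    have hyb : y ∈ t3.a := by
      by_contra h3
      exact hc s1 (hs1.trans hs0) x y h3 hy
    rcases hg ⟨y, hyb⟩ with h3 | h3
    · obtain ⟨_, _, h4⟩ := mem_fimp.1 (hLi x (g ⟨y, hyb⟩) y) s1
        (hs1.trans (hs0.trans (ht3.trans ht2))) ⟨hy, down_meets _ _ h3 _ hs1⟩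
      have h5 : x = g ⟨y, hyb⟩ := h4
      exact hx _ h5
    · exact h3 x s1 hs1 hy
  obtain ⟨s, hs, x, a, ha, hsa⟩ := hX
  obtain ⟨s', hs', ha', _⟩ := extend h0 s {a}
    (by rw [mk_singleton]; exact one_le_aleph0.trans h0) ∅ (by simp) (by simp)
  have hs3 : s' ≤ t3 := hs'.trans hs
  have haa : a ∈ s'.a := ha' rfl
  have hlt : ∀ i, a < f i := by
    intro i
    obtain ⟨_, _, h4⟩ := mem_fimp.1 (hLR x i a (f i)) s' (hs3.trans (ht3.trans ht2))
      ⟨down_meets _ _ hsa _ hs', down_meets _ _ (hf i) _ (hs3.trans ht3)⟩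
    exact h4
  obtain ⟨y, ⟨i, hi⟩, hyc⟩ := hs3.2.2.2 _ hpr' a haa ha (by
    rintro y ⟨i, rfl⟩
    exact hlt i)
  subst hi
  exact ⟨s', hs3.trans (ht3.trans ht2), x, i, a, f i, down_meets _ _ hsa _ hs',
    down_meets _ _ (hf i) _ (hs3.trans ht3), hlt i, haa,
    hs3.1 ((t3.hB _ hpr').1 ⟨i, rfl⟩), hyc⟩

/-- the generic function takes the value `c` at `(a, b)` -/
def gen (a b : S mu) (c : C) : Set (Cnd mu C) :=
  {p | a ∈ p.a ∧ b ∈ p.a ∧ p.g (min a b) (max a b) = c}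

theorem mem_meets_of_mem {P : Type} [Preorder P] {N : Set P} {p : P} (h : p ∈ N) :
    p ∈ meets N := fun q hq => ⟨q, le_rfl, p, h, hq⟩

theorem gen_val {a b : S mu} {c : C} {p q : Cnd mu C} (h : p ∈ gen a b c) (hq : q ≤ p) :
    q.g (min a b) (max a b) = c := by
  have h1 : min a b ∈ p.a := by
    rcases min_choice a b with h2 | h2 <;> rw [h2]
    · exact h.1
    · exact h.2.1
  have h3 : max a b ∈ p.a := by
    rcases max_choice a b with h2 | h2 <;> rw [h2]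
    · exact h.1
    · exact h.2.1
  rw [hq.2.2.1 _ h1 _ h3]
  exact h.2.2

theorem gen_unique {a b : S mu} {c c' : C} {p : Cnd mu C}
    (h : p ∈ meets (gen a b c)) (h' : p ∈ meets (gen a b c')) : c = c' := by
  obtain ⟨r, hr, s, hs, hrs⟩ := h p le_rfl
  obtain ⟨r', hr', s', hs', hrs'⟩ := h' r hr
  rw [← gen_val hs (hr'.trans hrs), ← gen_val hs' hrs']

theorem increasing_inj {P : Type} [Preorder P] {T K : Type} [LinearOrder T] [Preorder K]
    {R : T → K → Set P} {t : P} (h : t ∈ Increasing R) (x x' : T) (a : K) :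
    t ∈ fimp (fand (meets (R x a)) (meets (R x' a))) (fground (x = x')) := by
  refine mem_fimp.2 fun q hq h1 => ⟨q, le_rfl, ?_⟩
  show x = x'
  rcases lt_trichotomy x x' with h2 | h2 | h2
  · obtain ⟨_, _, h3⟩ := mem_fimp.1 (h.2 x x' h2 a a) q hq h1
    exact absurd h3 (lt_irrefl a)
  · exact h2
  · obtain ⟨_, _, h3⟩ := mem_fimp.1 (h.2 x' x h2 a a) q hq ⟨h1.2, h1.1⟩
    exact absurd h3 (lt_irrefl a)

/-- One of the two halves of the square contains all colours. -/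
theorem half [Nonempty C] (h0 : ℵ₀ ≤ mu) {I T : Type} (hI : #I = mu)
    [LinearOrder T] [LinearOrder I] (e0 : Lam mu → T) (e1 : I → T)
    (he0 : Function.Injective e0) (he1 : StrictMono e1) (he : ∀ x i, e0 x < e1 i)
    (i0 : I) (hi0 : ∀ i, i0 ≤ i)
    (A B : T → S mu → Set (Cnd mu C)) (t : Cnd mu C) (hA : t ∈ Increasing A)
    (hB : t ∈ Increasing B) (a1 b1 : S mu) (ha1 : t ∈ meets (A (e1 i0) a1))
    (hb1 : t ∈ meets (B (e1 i0) b1)) (hab : a1 ≤ b1) (c : C) :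
    ∃ s ≤ t, ∃ x y a b, s ∈ meets (A x a) ∧ s ∈ meets (B y b) ∧ s ∈ gen a b c ∧
      s ∈ gen b a c := by
  have hdec : ∀ {X Y : Type} (R : T → S mu → Set (Cnd mu C)) (e : X → T), t ∈ IsFun R →
      t ∈ IsFun (fun x => R (e x)) := fun R e h => ⟨fun x => h.1 (e x), fun x => h.2 (e x)⟩
  obtain ⟨s, hs, x, i, a, b, h1, h2, h3, h4, h5, h6⟩ := core h0 hI (fun x => A (e0 x))
    (fun i => B (e1 i)) t ⟨fun x => hA.1.1 (e0 x), fun x => hA.1.2 (e0 x)⟩
    (by
      intro x x' a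
      refine mem_fimp.2 fun q hq h1 => ?_
      obtain ⟨r, hr, h2⟩ := mem_fimp.1 (increasing_inj hA (e0 x) (e0 x') a) q hq h1
      exact ⟨r, hr, he0 h2⟩)
    ⟨fun x => hB.1.1 (e1 x), fun x => hB.1.2 (e1 x)⟩
    (by
      intro x x' a
      refine mem_fimp.2 fun q hq h1 => ?_
      obtain ⟨r, hr, h2⟩ := mem_fimp.1 (increasing_inj hB (e1 x) (e1 x') a) q hq h1
      exact ⟨r, hr, he1.injective h2⟩)
    (by
      intro x i a b
      refine mem_fimp.2 fun q hq h1 => ⟨q, le_rfl, ?_⟩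
      show a < b
      obtain ⟨_, _, h2⟩ := mem_fimp.1 (hA.2 (e0 x) (e1 i0) (he x i0) a a1) q hq
        ⟨h1.1, down_meets _ _ ha1 _ hq⟩
      have h2' : a < a1 := h2
      refine h2'.trans_le (hab.trans ?_)
      rcases eq_or_lt_of_le (hi0 i) with h3 | h3
      · subst h3
        obtain ⟨_, _, h4⟩ := mem_fimp.1 (hB.1.2 (e1 i0) b1 b) q hq
          ⟨down_meets _ _ hb1 _ hq, h1.2⟩
        exact le_of_eq h4
      · obtain ⟨_, _, h4⟩ := mem_fimp.1 (hB.2 (e1 i0) (e1 i) (he1 h3) b1 b) q hq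
          ⟨down_meets _ _ hb1 _ hq, h1.2⟩
        exact le_of_lt h4) c
  refine ⟨s, hs, e0 x, e1 i, a, b, h1, h2, ⟨h4, h5, ?_⟩, ⟨h5, h4, ?_⟩⟩
  · rw [min_eq_left h3.le, max_eq_right h3.le, h6]
  · rw [min_eq_right h3.le, max_eq_left h3.le, h6]

theorem down_Increasing {P : Type} [Preorder P] {T K : Type} [LT T] [LT K]
    (R : T → K → Set P) : Down (Increasing R) :=
  down_fand (down_IsFun _) (down_fall fun _ => down_fall fun _ => down_fall fun _ =>
    down_fall fun _ => down_fall fun _ => down_fimp _ _)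

theorem allColours [Nonempty C] (h0 : ℵ₀ ≤ mu) {I T : Type} (hI : #I = mu)
    [LinearOrder T] [LinearOrder I] (e0 : Lam mu → T) (e1 : I → T)
    (he0 : Function.Injective e0) (he1 : StrictMono e1) (he : ∀ x i, e0 x < e1 i)
    (i0 : I) (hi0 : ∀ i, i0 ≤ i) (p : Cnd mu C) :
    p ∈ AllColoursOnProducts (Cnd mu C) (S mu) T C := by
  refine mem_fex.2 fun q _ => ⟨q, le_rfl, gen, ?_, ?_⟩
  · intro a
    refine ⟨fun b => mem_fex.2 fun r _ => ?_, fun b c c' => mem_fimp.2 fun r _ h => ?_⟩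
    · obtain ⟨s, hs, h1, _⟩ := extend h0 r {a, b}
        ((mk_insert_le).trans (add_le_of_le h0 (by rw [mk_singleton]; exact one_le_aleph0.trans h0)
          (one_le_aleph0.trans h0))) ∅ (by simp) (by simp)
      exact ⟨s, hs, s.g (min a b) (max a b), mem_meets_of_mem ⟨h1 (by simp), h1 (by simp), rfl⟩⟩
    · exact ⟨r, le_rfl, gen_unique h.1 h.2⟩
  · intro A B
    refine mem_fimp.2 fun r _ hr => ⟨r, le_rfl, ?_⟩
    intro c
    refine mem_fex.2 fun t ht => ?_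
    obtain ⟨t1, ht1, a1, ha1⟩ := mem_fex.1 (hr.1.1.1 (e1 i0)) t ht
    obtain ⟨t2, ht2, b1, hb1⟩ := mem_fex.1 (hr.2.1.1 (e1 i0)) t1 (ht1.trans ht)
    have hA2 : t2 ∈ Increasing A := down_Increasing _ _ hr.1 _ (ht2.trans (ht1.trans ht))
    have hB2 : t2 ∈ Increasing B := down_Increasing _ _ hr.2 _ (ht2.trans (ht1.trans ht))
    have key : ∃ s ≤ t2, ∃ x y a b, s ∈ meets (A x a) ∧ s ∈ meets (B y b) ∧ s ∈ gen a b c := by
      rcases le_total a1 b1 with h | h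
      · obtain ⟨s, hs, x, y, a, b, h1, h2, h3, h4⟩ := half h0 hI e0 e1 he0 he1 he i0 hi0 A B t2
          hA2 hB2 a1 b1 (down_meets _ _ ha1 _ ht2) hb1 h c
        exact ⟨s, hs, x, y, a, b, h1, h2, h3⟩
      · obtain ⟨s, hs, x, y, a, b, h1, h2, h3, h4⟩ := half h0 hI e0 e1 he0 he1 he i0 hi0 B A t2
          hB2 hA2 b1 a1 hb1 (down_meets _ _ ha1 _ ht2) h c
        exact ⟨s, hs, y, x, b, a, h2, h1, h4⟩
    obtain ⟨s, hs, x, y, a, b, h1, h2, h3⟩ := key
    refine ⟨s, hs.trans (ht2.trans ht1), x, mem_fex.2 fun s1 hs1 => ⟨s1, le_rfl, y,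
      mem_fex.2 fun s2 hs2 => ⟨s2, le_rfl, a, mem_fex.2 fun s3 hs3 => ⟨s3, le_rfl, b, ?_⟩⟩⟩⟩
    have hs4 : s3 ≤ s := hs3.trans (hs2.trans hs1)
    exact ⟨⟨down_meets _ _ h1 _ hs4, down_meets _ _ h2 _ hs4⟩,
      down_meets _ _ (mem_meets_of_mem h3) _ hs4⟩

/-- the generic function is a function -/
theorem gen_isFun [Nonempty C] (h0 : ℵ₀ ≤ mu) (q : Cnd mu C) :
    q ∈ fall fun a : S mu => IsFun (gen (mu := mu) (C := C) a) := by
  intro a
  refine ⟨fun b => mem_fex.2 fun r _ => ?_, fun b c c' => mem_fimp.2 fun r _ h => ?_⟩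
  · obtain ⟨s, hs, h1, _⟩ := extend h0 r {a, b}
      ((mk_insert_le).trans (add_le_of_le h0 (by rw [mk_singleton]; exact one_le_aleph0.trans h0)
        (one_le_aleph0.trans h0))) ∅ (by simp) (by simp)
    exact ⟨s, hs, s.g (min a b) (max a b), mem_meets_of_mem ⟨h1 (by simp), h1 (by simp), rfl⟩⟩
  · exact ⟨r, le_rfl, gen_unique h.1 h.2⟩

/-- a function of the ground model is a function of the extension -/
theorem ground_isFun {P X Y : Type} [Preorder P] (e : X → Y) (t : P) :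
    t ∈ IsFun (fun (i : X) (a : Y) => fground (P := P) (e i = a)) := by
  refine ⟨fun i => mem_fex.2 fun r _ => ⟨r, le_rfl, e i, mem_meets_of_mem rfl⟩, fun i x y =>
    mem_fimp.2 fun r _ h => ⟨r, le_rfl, ?_⟩⟩
  obtain ⟨_, _, _, h3, _⟩ := h.1 r le_rfl
  obtain ⟨_, _, _, h4, _⟩ := h.2 r le_rfl
  have h3' : e i = x := h3
  have h4' : e i = y := h4
  show x = y
  rw [← h3', ← h4']

/-- **Almost all rows.** -/
theorem almostAllRows [Nonempty C] (h0 : ℵ₀ ≤ mu) {I : Type} (hI : #I = mu) (p : Cnd mu C) :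
    p ∈ AlmostAllRows (Cnd mu C) (S mu) I C := by
  refine mem_fex.2 fun q _ => ⟨q, le_rfl, gen, gen_isFun h0 q, ?_⟩
  intro B
  refine mem_fimp.2 fun r _ hr => ⟨r, le_rfl, ?_⟩
  intro c
  refine mem_fex.2 fun t ht => ?_
  obtain ⟨t2, ht2, f, hf⟩ := decide_fun h0 (A := I) hI.le B t (down_IsFun _ _ hr.1 _ ht)
  have hinj : Function.Injective f := by
    intro i i' hii
    obtain ⟨_, _, h3⟩ := mem_fimp.1 (hr.2 i i' (f i)) t2 (ht2.trans ht)
      ⟨hf i, by rw [hii]; exact hf i'⟩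
    exact h3
  have hcard : #(range f) = mu := by rw [mk_range_eq _ hinj, hI]
  obtain ⟨t3, ht3, _, hpr⟩ := extend h0 t2 (range f) hcard.le {(range f, c)}
    (by rw [mk_singleton]; exact one_le_aleph0.trans h0) (by
      intro D hD
      rw [mem_singleton_iff] at hD
      subst hD
      exact ⟨Subset.rfl, hcard.ge⟩)
  have hpr' : (range f, c) ∈ t3.pr := hpr rfl
  have hIne : Nonempty I := by
    rw [← mk_ne_zero_iff, hI]
    exact (aleph0_pos.trans_le h0).ne'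
  have hSne : Nonempty (S mu) := ⟨f (Classical.arbitrary I)⟩
  obtain ⟨e, he⟩ := exists_cover (X := S mu) (m := I) t3.a (t3.ha.trans hI.ge)
  refine ⟨t3, ht3.trans ht2, fun i a => fground (e i = a), ground_isFun e t3, ?_⟩
  intro a
  refine mem_fimp.2 fun u hu h => ?_
  have hane : a ∉ t3.a := by
    intro ha
    obtain ⟨i, hi⟩ := he ha
    exact h.2 i u le_rfl (mem_meets_of_mem (show u ∈ fground (P := Cnd mu C) (e i = a) from hi))
  have hlt : ∀ i, a < f i := by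
    intro i
    obtain ⟨_, _, h4⟩ := mem_fimp.1 (h.1 i (f i)) u le_rfl
      (down_meets _ _ (hf i) _ (hu.trans ht3))
    exact h4
  obtain ⟨v, hv, hva, _⟩ := extend h0 u {a}
    (by rw [mk_singleton]; exact one_le_aleph0.trans h0) ∅ (by simp) (by simp)
  have haa : a ∈ v.a := hva rfl
  obtain ⟨y, ⟨i, hi⟩, hyc⟩ := (hv.trans hu).2.2.2 _ hpr' a haa hane (by
    rintro y ⟨i, rfl⟩
    exact hlt i)
  subst hi
  have hfa : f i ∈ v.a := (hv.trans hu).1 ((t3.hB _ hpr').1 ⟨i, rfl⟩)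
  have g1 : v ∈ gen a (f i) c := by
    refine ⟨haa, hfa, ?_⟩
    rw [min_eq_left (hlt i).le, max_eq_right (hlt i).le]; exact hyc
  have g2 : v ∈ gen (f i) a c := by
    refine ⟨hfa, haa, ?_⟩
    rw [min_eq_right (hlt i).le, max_eq_left (hlt i).le]; exact hyc
  refine ⟨v, hv, mem_fex.2 fun w hw => ⟨w, le_rfl, i, mem_fex.2 fun z hz => ⟨z, le_rfl, f i, ?_⟩⟩⟩
  have hzv : z ≤ v := hz.trans hw
  exact ⟨down_meets _ _ (hf i) _ (hzv.trans (hv.trans (hu.trans ht3))),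
    down_meets _ _ (mem_meets_of_mem g1) _ hzv, down_meets _ _ (mem_meets_of_mem g2) _ hzv⟩

end Pool.Agent.KS6_69.SQ.Forced
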