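import Pool.Agent.KS6_69.SQ.Base
import Pool.Agent.KS6_69.SQ.Forced
import Pool.Agent.KS6_69.SQ.Chain

/-!
# Square in square fails at successor cardinals
-/

set_option autoImplicit false

namespace Pool.Agent.KS6_69.SQ.Main

open Cardinal Ordinal Set
open Pool.Agent.KS6_69.SQ.Forcing
open Pool.Agent.KS6_69.SQ.Base Pool.Agent.KS6_69.SQ.Cond Pool.Agent.KS6_69.SQ.Defs
open Pool.Agent.KS6_69.SQ.Chain Pool.Agent.KS6_69.SQ.Forced

section
variable {P : Type} [Preorder P]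

theorem down_Sis (K T C : Type) [LT K] [LT T] : Down (Sis P K T C) :=
  down_fall fun _ => down_fimp _ _

theorem not_sis {K T C : Type} [LT K] [LT T] [Nontrivial C] {p : P}
    (h : p ∈ AllColoursOnProducts P K T C) : p ∈ fnot (Sis P K T C) := by
  intro q hq hs
  obtain ⟨r, hr, F, hF1, hF2⟩ := mem_fex.1 h q hq
  obtain ⟨r1, hr1, h1⟩ := mem_fimp.1 (hs F) r hr hF1
  obtain ⟨r2, hr2, A, h2⟩ := mem_fex.1 h1 r1 le_rfl
  obtain ⟨r3, hr3, B, h3⟩ := mem_fex.1 h2 r2 le_rfl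
  obtain ⟨r4, hr4, c, h4, h5⟩ := mem_fex.1 h3 r3 le_rfl
  obtain ⟨c', hc'⟩ := exists_ne c
  have h43 : r4 ≤ r := hr4.trans (hr3.trans (hr2.trans hr1))
  obtain ⟨r5, hr5, h6⟩ := mem_fimp.1 (hF2 A B) r4 h43 h4
  obtain ⟨r6, hr6, x, h7⟩ := mem_fex.1 (h6 c') r5 le_rfl
  obtain ⟨r7, hr7, y, h8⟩ := mem_fex.1 h7 r6 le_rfl
  obtain ⟨r8, hr8, a, h9⟩ := mem_fex.1 h8 r7 le_rfl
  obtain ⟨r9, hr9, b, h10, h11⟩ := mem_fex.1 h9 r8 le_rfl
  have h94 : r9 ≤ r4 := hr9.trans (hr8.trans (hr7.trans (hr6.trans hr5)))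
  obtain ⟨r10, hr10, h12⟩ := mem_fimp.1 (h5 x y a b) r9 h94 h10
  obtain ⟨_, _, h13⟩ := mem_fimp.1 ((hF1 a).2 b c c') r10 (hr10.trans (h94.trans h43))
    ⟨h12, down_meets _ _ h11 _ hr10⟩
  exact hc' (Eq.symm h13)

theorem meets_of {N : Set P} {p : P} (h : p ∈ N) : p ∈ meets N :=
  fun q hq => ⟨q, le_rfl, p, h, hq⟩

/-- merging colours -/
theorem allColours_map {K T C C' : Type} [LT K] [LT T] (f : C → C')
    (hf : Function.Surjective f) {p : P}
    (h : p ∈ AllColoursOnProducts P K T C) : p ∈ AllColoursOnProducts P K T C' := by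
  refine mem_fex.2 fun q hq => ?_
  obtain ⟨r, hr, F, hF1, hF2⟩ := mem_fex.1 h q hq
  have hup : ∀ a b c s, s ∈ meets (F a b c) → s ∈ meets {t : P | ∃ d, f d = f c ∧ t ∈ F a b d} := by
    intro a b c s hs t ht
    obtain ⟨u, hu, v, hv, huv⟩ := hs t ht
    exact ⟨u, hu, v, ⟨c, rfl, hv⟩, huv⟩
  refine ⟨r, hr, fun a b c' => {t | ∃ d, f d = c' ∧ t ∈ F a b d}, ?_, ?_⟩
  · intro a
    refine ⟨fun b => mem_fex.2 fun s hs => ?_, fun b c c' => mem_fimp.2 fun s hs h1 =>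
      ⟨s, le_rfl, ?_⟩⟩
    · obtain ⟨t, ht, c, hc⟩ := mem_fex.1 ((hF1 a).1 b) s hs
      exact ⟨t, ht, f c, hup a b c t hc⟩
    · obtain ⟨t, ht, u, ⟨d, hd, hu⟩, htu⟩ := h1.1 s le_rfl
      obtain ⟨t', ht', u', ⟨d', hd', hu'⟩, htu'⟩ := h1.2 t ht
      obtain ⟨_, _, h2⟩ := mem_fimp.1 ((hF1 a).2 b d d') t' (ht'.trans (ht.trans hs))
        ⟨down_meets _ _ (meets_of hu) _ (ht'.trans htu), down_meets _ _ (meets_of hu') _ htu'⟩
      have h3 : d = d' := h2
      show c = c'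
      rw [← hd, ← hd', h3]
  · intro A B
    refine mem_fimp.2 fun s hs h1 => ?_
    obtain ⟨t, ht, h2⟩ := mem_fimp.1 (hF2 A B) s hs h1
    refine ⟨t, ht, fun c' => ?_⟩
    obtain ⟨c, rfl⟩ := hf c'
    refine mem_fex.2 fun u hu => ?_
    obtain ⟨u1, hu1, x, h3⟩ := mem_fex.1 (h2 c) u hu
    refine ⟨u1, hu1, x, mem_fex.2 fun v hv => ?_⟩
    obtain ⟨v1, hv1, y, h4⟩ := mem_fex.1 h3 v hv
    refine ⟨v1, hv1, y, mem_fex.2 fun w hw => ?_⟩
    obtain ⟨w1, hw1, a, h5⟩ := mem_fex.1 h4 w hw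
    refine ⟨w1, hw1, a, mem_fex.2 fun z hz => ?_⟩
    obtain ⟨z1, hz1, b, h6, h7⟩ := mem_fex.1 h5 z hz
    exact ⟨z1, hz1, b, h6, hup a b c z1 h7⟩

end

variable {mu : Cardinal.{0}} {C : Type}

theorem weakPower [Nonempty C] (h0 : ℵ₀ ≤ mu)  (h2 : 2 ^ mu = Order.succ mu)
    (p : Cnd mu C) : p ∈ WeakPower (Cnd mu C) (Order.succ mu) := by
  classical
  intro ν hν
  have hν' : ν ≤ mu := Order.lt_succ_iff.1 hν
  have hν2 : #ν.out ≤ mu := by rwa [mk_out]
  obtain ⟨hp1, _⟩ := power_facts h0 h2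
  have hs0 : ℵ₀ ≤ Order.succ mu := h0.trans (Order.le_succ mu)
  have hK : #((Order.succ mu).ord.ToType) = Order.succ mu := mk_Lam
  have hne : Nonempty ((Order.succ mu).ord.ToType) := by
    rw [← mk_ne_zero_iff, hK]
    exact (aleph0_pos.trans_le hs0).ne'
  have hcard : #(ν.out → (Order.succ mu).ord.ToType) ≤ #((Order.succ mu).ord.ToType) := by
    have h5 : #(ν.out → (Order.succ mu).ord.ToType) = (Order.succ mu) ^ ν := by
      rw [← power_def, mk_out, hK]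
    rw [h5, hK]
    calc (Order.succ mu) ^ ν ≤ (Order.succ mu) ^ mu :=
          power_le_power_left (aleph0_pos.trans_le hs0).ne' hν'
      _ = _ := hp1
  obtain ⟨j⟩ := hcard
  let e : (Order.succ mu).ord.ToType → (ν.out → (Order.succ mu).ord.ToType) :=
    Function.invFun j
  have he : Function.Surjective e := Function.invFun_surjective j.injective
  refine mem_fex.2 fun q _ => ⟨q, le_rfl, fun k i x => fground (e k i = x), ?_, ?_⟩
  · intro k
    refine ⟨fun i => mem_fex.2 fun r _ => ⟨r, le_rfl, e k i, meets_of rfl⟩, fun i x y =>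
      mem_fimp.2 fun r _ h => ⟨r, le_rfl, ?_⟩⟩
    obtain ⟨_, _, _, h3, _⟩ := h.1 r le_rfl
    obtain ⟨_, _, _, h4, _⟩ := h.2 r le_rfl
    have h3' : e k i = x := h3
    have h4' : e k i = y := h4
    show x = y
    rw [← h3', ← h4']
  · intro R
    refine mem_fimp.2 fun r _ hr => ?_
    obtain ⟨s, hs, f, hf⟩ := decide_fun h0 hν2 R r hr
    obtain ⟨k, hk⟩ := he f
    refine ⟨s, hs, mem_fex.2 fun t ht => ⟨t, le_rfl, k, fun i x => mem_fimp.2 fun u hu h => ?_⟩⟩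
    obtain ⟨v, hv, h3⟩ := mem_fimp.1 (hr.2 i (f i) x) u (hu.trans (ht.trans hs))
      ⟨down_meets _ _ (hf i) _ (hu.trans ht), h⟩
    have h3' : f i = x := h3
    refine ⟨v, hv, meets_of ?_⟩
    show e k i = x
    rw [hk, h3']

theorem main (h0 : ℵ₀ ≤ mu) (h2 : 2 ^ mu = Order.succ mu) :
    ∃ (P : Type) (_ : Preorder P), Nonempty P ∧ ∀ p : P,
      p ∈ CardinalsPreserved.{0, 0} P ∧ p ∈ WeakPower P (Order.succ mu) ∧
      p ∈ AlmostAllRows P (Order.succ (Order.succ mu)).ord.ToType mu.ord.ToType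
        (Order.succ mu).ord.ToType ∧
      p ∈ AllColoursOnProducts P (Order.succ (Order.succ mu)).ord.ToType
        ((Order.succ mu).ord + mu.ord).ToType (Order.succ mu).ord.ToType := by
  have hI : #(mu.ord.ToType) = mu := by simp
  have hIne : Nonempty mu.ord.ToType := by
    rw [← mk_ne_zero_iff, hI]
    exact (aleph0_pos.trans_le h0).ne'
  have hs0 : ℵ₀ ≤ Order.succ mu := h0.trans (Order.le_succ mu)
  have hCc : #((Order.succ mu).ord.ToType) ≤ Order.succ mu := by simp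
  have hCne : Nonempty ((Order.succ mu).ord.ToType) := by
    rw [← mk_ne_zero_iff, mk_Lam]
    exact (aleph0_pos.trans_le hs0).ne'
  obtain ⟨f⟩ : Nonempty (Sum.Lex (α := Lam mu) (β := mu.ord.ToType) (· < ·) (· < ·) ≃r
      ((· < ·) : ((Order.succ mu).ord + mu.ord).ToType → ((Order.succ mu).ord + mu.ord).ToType →
        Prop)) := by
    refine Ordinal.type_eq.1 ?_
    rw [Ordinal.type_sum_lex]
    simp
  refine ⟨Cnd mu (Order.succ mu).ord.ToType, inferInstance, nonempty_cond, fun p => ⟨?_, ?_, ?_, ?_⟩⟩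
  · exact cardinals_preserved (θ := mu) hs0
      (fun ν h => Order.succ_le_of_lt h) (chain h0 hCc h2)
      (fun A Y hA R p hp => decide_fun h0 hA R p hp) p
  · exact weakPower h0 h2 p
  · exact almostAllRows h0 hI p
  · obtain ⟨i0, _, hi0⟩ := (wellFounded_lt (α := mu.ord.ToType)).has_min Set.univ
      Set.univ_nonempty
    refine allColours h0 (I := mu.ord.ToType) hI (fun x => f (Sum.inl x))
      (fun i => f (Sum.inr i)) ?_ ?_ ?_ i0 (fun i => not_lt.1 (hi0 i trivial)) p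
    · intro x y hxy
      exact Sum.inl.inj (f.injective hxy)
    · intro x y hxy
      exact f.map_rel_iff.2 (Sum.Lex.inr hxy)
    · intro x i
      exact f.map_rel_iff.2 (Sum.Lex.sep x i)

end Pool.Agent.KS6_69.SQ.Main
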